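import Mathlib

set_option autoImplicit false

/-!
An admissible rational function for which `n_d ^ (1/d)` decreases at every even `d`.

The function is `f = d₁d₂/(d₁+d₂) + w/(w(d₁-2)²+1) + A/(A((d₁-1)²+(d₂-1)²)+1)` with
`w = (d₂+2)⁴` and `A = 10⁷`.
-/

namespace Pool.Agent.Results.MP_0f9b8a_co.NotMonotone

open Filter Topology Finset

/-- The value at `(a, b)` of the rational function `P/Q`. -/
noncomputable def val (P Q : MvPolynomial (Fin 2) ℚ) (a b : ℕ) : ℝ :=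
  ((MvPolynomial.eval ![(a : ℚ), (b : ℚ)] P / MvPolynomial.eval ![(a : ℚ), (b : ℚ)] Q : ℚ) : ℝ)

/-- The rational function `P/Q` is admissible. -/
def Admissible (P Q : MvPolynomial (Fin 2) ℚ) : Prop :=
  (∀ a b : ℕ, 1 ≤ a → 1 ≤ b → MvPolynomial.eval ![(a : ℚ), (b : ℚ)] Q ≠ 0) ∧
  (∀ a b : ℕ, 1 ≤ a → 1 ≤ b → 0 < val P Q a b) ∧
  ∃ k : ℝ, 0 < k ∧ ∃ l : ℝ, 0 < l ∧
    Tendsto (fun p : ℕ × ℕ => val P Q p.1 p.2 /
      (((p.1 : ℝ) * (p.2 : ℝ)) / ((p.1 : ℝ) + (p.2 : ℝ))) ^ k) (atTop ×ˢ atTop) (𝓝 l)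

/-! ### The function -/

/-- first term -/
noncomputable def T1 (a b : ℕ) : ℝ := (a : ℝ) * b / (a + b)
/-- second term -/
noncomputable def T2 (a b : ℕ) : ℝ := ((b : ℝ) + 2) ^ 4 / (((b : ℝ) + 2) ^ 4 * ((a : ℝ) - 2) ^ 2 + 1)
/-- third term -/
noncomputable def T3 (a b : ℕ) : ℝ :=
  (10 : ℝ) ^ 7 / ((10 : ℝ) ^ 7 * (((a : ℝ) - 1) ^ 2 + ((b : ℝ) - 1) ^ 2) + 1)
/-- the function -/
noncomputable def F (a b : ℕ) : ℝ := T1 a b + T2 a b + T3 a b

theorem T1_nonneg (a b : ℕ) : 0 ≤ T1 a b := by unfold T1; positivity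
theorem T2_pos (a b : ℕ) : 0 < T2 a b := by unfold T2; positivity
theorem T3_pos (a b : ℕ) : 0 < T3 a b := by unfold T3; positivity
theorem F_pos (a b : ℕ) : 0 < F a b := by
  have := T1_nonneg a b; have := T2_pos a b; have := T3_pos a b
  unfold F; linarith

theorem T1_right (a b : ℕ) (ha : 1 ≤ a) (hb : 1 ≤ b) :
    T1 a (b + 1) ≤ (1 + 1 / (b : ℝ)) * T1 a b := by
  have ha' : (1 : ℝ) ≤ a := by exact_mod_cast ha
  have hb' : (1 : ℝ) ≤ b := by exact_mod_cast hb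
  have e : (1 + 1 / (b : ℝ)) * T1 a b = (a : ℝ) * (b + 1) / (a + b) := by
    unfold T1; field_simp
  rw [e]
  unfold T1
  push_cast
  apply div_le_div_of_nonneg_left (by positivity) (by positivity)
  linarith

theorem T1_left (a b : ℕ) (ha : 1 ≤ a) (hb : 1 ≤ b) :
    T1 (a + 1) b ≤ (1 + 1 / (a : ℝ)) * T1 a b := by
  have ha' : (1 : ℝ) ≤ a := by exact_mod_cast ha
  have hb' : (1 : ℝ) ≤ b := by exact_mod_cast hb
  have e : (1 + 1 / (a : ℝ)) * T1 a b = ((a : ℝ) + 1) * b / (a + b) := by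
    unfold T1; field_simp
  rw [e]
  unfold T1
  push_cast
  apply div_le_div_of_nonneg_left (by positivity) (by positivity)
  linarith

theorem T2_le (a b : ℕ) (ha : 3 ≤ a) : T2 a b ≤ 1 / ((a : ℝ) - 2) ^ 2 := by
  have ha' : (3 : ℝ) ≤ a := by exact_mod_cast ha
  unfold T2
  rw [div_le_div_iff₀ (by positivity) (by nlinarith)]
  nlinarith

theorem T2_right (a b : ℕ) (ha : 3 ≤ a) (hb : 1 ≤ b) :
    T2 a (b + 1) ≤ (1 + 1 / (b : ℝ)) * T2 a b := by
  have ha' : (3 : ℝ) ≤ a := by exact_mod_cast ha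
  have hb' : (1 : ℝ) ≤ b := by exact_mod_cast hb
  refine (T2_le a (b + 1) ha).trans ?_
  unfold T2
  have h1 : (1 : ℝ) ≤ ((a : ℝ) - 2) ^ 2 := by nlinarith
  have h2 : (b : ℝ) ≤ ((b : ℝ) + 2) ^ 4 := by
    have : (1 : ℝ) ≤ (b : ℝ) + 2 := by linarith
    calc (b : ℝ) ≤ (b : ℝ) + 2 := by linarith
      _ ≤ ((b : ℝ) + 2) ^ 4 := le_self_pow₀ this (by norm_num)
  set w : ℝ := ((b : ℝ) + 2) ^ 4 with hw
  set q : ℝ := ((a : ℝ) - 2) ^ 2 with hq
  have hq0 : 0 < q := by linarith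
  have hw0 : 0 < w := by linarith
  have e : (1 + 1 / (b : ℝ)) * (w / (w * q + 1)) = ((b : ℝ) + 1) * w / (b * (w * q + 1)) := by
    field_simp
  rw [e, div_le_div_iff₀ hq0 (by positivity)]
  nlinarith [mul_le_mul h2 h1 zero_le_one hw0.le]

theorem T2_left (a b : ℕ) (ha : 2 ≤ a) : T2 (a + 1) b ≤ T2 a b := by
  have ha' : (2 : ℝ) ≤ a := by exact_mod_cast ha
  unfold T2
  push_cast
  apply div_le_div_of_nonneg_left (by positivity) (by positivity)
  have h1 : ((a : ℝ) - 2) ^ 2 ≤ ((a : ℝ) + 1 - 2) ^ 2 := by nlinarith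
  have h2 : (0 : ℝ) ≤ ((b : ℝ) + 2) ^ 4 := by positivity
  nlinarith

theorem T3_right (a b : ℕ) (hb : 1 ≤ b) : T3 a (b + 1) ≤ T3 a b := by
  have hb' : (1 : ℝ) ≤ b := by exact_mod_cast hb
  unfold T3
  push_cast
  apply div_le_div_of_nonneg_left (by positivity) (by positivity)
  have h1 : ((b : ℝ) - 1) ^ 2 ≤ ((b : ℝ) + 1 - 1) ^ 2 := by nlinarith
  nlinarith

theorem T3_left (a b : ℕ) (ha : 1 ≤ a) : T3 (a + 1) b ≤ T3 a b := by
  have ha' : (1 : ℝ) ≤ a := by exact_mod_cast ha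
  unfold T3
  push_cast
  apply div_le_div_of_nonneg_left (by positivity) (by positivity)
  have h1 : ((a : ℝ) - 1) ^ 2 ≤ ((a : ℝ) + 1 - 1) ^ 2 := by nlinarith
  nlinarith

theorem T3_le_one (a b : ℕ) (h : 2 ≤ a ∨ 2 ≤ b) : T3 a b ≤ 1 := by
  unfold T3
  rw [div_le_one (by positivity)]
  have h1 : (1 : ℝ) ≤ ((a : ℝ) - 1) ^ 2 + ((b : ℝ) - 1) ^ 2 := by
    rcases h with h | h
    · have : (2 : ℝ) ≤ a := by exact_mod_cast h
      nlinarith [sq_nonneg ((b : ℝ) - 1)]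
    · have : (2 : ℝ) ≤ b := by exact_mod_cast h
      nlinarith [sq_nonneg ((a : ℝ) - 1)]
  nlinarith

theorem T2_le_one (a b : ℕ) (h : a ≠ 2) : T2 a b ≤ 1 := by
  unfold T2
  rw [div_le_one (by positivity)]
  have h1 : (1 : ℝ) ≤ ((a : ℝ) - 2) ^ 2 := by
    rcases Nat.lt_or_gt_of_ne h with h | h
    · have : (a : ℝ) ≤ 1 := by exact_mod_cast Nat.lt_succ_iff.mp h
      nlinarith
    · have : (3 : ℝ) ≤ a := by exact_mod_cast h
      nlinarith
  have h2 : (0 : ℝ) ≤ ((b : ℝ) + 2) ^ 4 := by positivity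
  nlinarith

theorem T1_le_right (a b : ℕ) (ha : 1 ≤ a) : T1 a b ≤ b := by
  unfold T1
  have ha' : (1 : ℝ) ≤ a := by exact_mod_cast ha
  rw [div_le_iff₀ (by positivity)]
  nlinarith [sq_nonneg (b : ℝ)]

theorem T1_le_left (a b : ℕ) (hb : 1 ≤ b) : T1 a b ≤ a := by
  unfold T1
  have ha' : (1 : ℝ) ≤ b := by exact_mod_cast hb
  rw [div_le_iff₀ (by positivity)]
  nlinarith [sq_nonneg (a : ℝ)]

/-- The key inequality. -/
theorem key (a b : ℕ) (ha : 1 ≤ a) (hb : 1 ≤ b) :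
    200 * ((b : ℝ) ^ 2 * F (2 * a) (2 * b + 1) + (a : ℝ) ^ 2 * F (2 * a + 1) (2 * b)) ≤
      (200 * ((a : ℝ) + b) ^ 2 - 100) * F (2 * a) (2 * b) := by
  have ha' : (1 : ℝ) ≤ a := by exact_mod_cast ha
  have hb' : (1 : ℝ) ≤ b := by exact_mod_cast hb
  have hF0 := F_pos (2 * a) (2 * b)
  rcases Nat.lt_or_ge a 2 with h | h
  · have ha1 : a = 1 := by omega
    subst ha1
    set ρ : ℝ := ((2 * (b : ℝ) + 3) / (2 * b + 2)) ^ 4 with hρ
    have hρ1 : 1 + 1 / (2 * (b : ℝ)) ≤ ρ := by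
      rw [hρ]
      have e : (2 * (b : ℝ) + 3) / (2 * b + 2) = 1 + 1 / (2 * b + 2) := by
        field_simp
        ring
      rw [e]
      have h1 := one_add_mul_le_pow (a := 1 / (2 * (b : ℝ) + 2)) (by
        have : (0 : ℝ) ≤ 1 / (2 * (b : ℝ) + 2) := by positivity
        linarith) 4
      refine le_trans ?_ h1
      have : 1 / (2 * (b : ℝ)) ≤ ((4 : ℕ) : ℝ) * (1 / (2 * b + 2)) := by
        rw [mul_one_div, div_le_div_iff₀ (by positivity) (by positivity)]
        push_cast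
        linarith
      linarith
    have h1 : F (2 * 1) (2 * b + 1) ≤ ρ * F (2 * 1) (2 * b) := by
      have e1 := T1_right (2 * 1) (2 * b) (by omega) (by omega)
      have e3 := T3_right (2 * 1) (2 * b) (by omega)
      have e2 : T2 (2 * 1) (2 * b + 1) = ρ * T2 (2 * 1) (2 * b) := by
        unfold T2
        rw [hρ]
        push_cast
        have : (2 : ℝ) - 2 = 0 := by norm_num
        rw [this]
        rw [div_pow]
        field_simp
        ring
      push_cast at e1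
      have h2 := T1_nonneg (2 * 1) (2 * b)
      have h3 := (T3_pos (2 * 1) (2 * b)).le
      have h4 : (1 : ℝ) ≤ ρ := by
        have : 0 ≤ 1 / (2 * (b : ℝ)) := by positivity
        linarith
      unfold F
      rw [e2]
      have h5 : (1 + 1 / (2 * (b : ℝ))) * T1 (2 * 1) (2 * b) ≤ ρ * T1 (2 * 1) (2 * b) :=
        mul_le_mul_of_nonneg_right hρ1 h2
      have h6 : T3 (2 * 1) (2 * b) ≤ ρ * T3 (2 * 1) (2 * b) := by nlinarith
      have h7 : T1 (2 * 1) (2 * b + 1) ≤ (1 + 1 / (2 * (b : ℝ))) * T1 (2 * 1) (2 * b) := by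
        simpa using e1
      linarith
    have h2 : F (2 * 1 + 1) (2 * b) ≤ F (2 * 1) (2 * b) := by
      have e1 := T1_le_left (2 * 1 + 1) (2 * b) (by omega)
      have e2 := T2_le_one (2 * 1 + 1) (2 * b) (by omega)
      have e3 := T3_left (2 * 1) (2 * b) (by omega)
      have e4 : (256 : ℝ) ≤ T2 (2 * 1) (2 * b) := by
        unfold T2
        push_cast
        have : (2 : ℝ) - 2 = 0 := by norm_num
        rw [this]
        have h5 : (4 : ℝ) ≤ 2 * (b : ℝ) + 2 := by linarith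
        have h6 : (4 : ℝ) ^ 4 ≤ (2 * (b : ℝ) + 2) ^ 4 := pow_le_pow_left₀ (by norm_num) h5 4
        norm_num at h6 ⊢
        exact h6
      have e5 := T1_nonneg (2 * 1) (2 * b)
      push_cast at e1
      unfold F
      linarith
    have h3 : (b : ℝ) ^ 2 * ρ ≤ (b : ℝ) ^ 2 + 2 * b - 1 / 2 := by
      rw [hρ, div_pow, mul_div_assoc', div_le_iff₀ (by positivity)]
      have h4 : (0 : ℝ) ≤ (b : ℝ) - 1 := by linarith
      nlinarith [mul_nonneg h4 (sq_nonneg (b : ℝ)), mul_nonneg h4 (mul_nonneg h4 h4), sq_nonneg ((b : ℝ) - 1)]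
    push_cast
    have h5 : (b : ℝ) ^ 2 * F (2 * 1) (2 * b + 1) ≤
        ((b : ℝ) ^ 2 + 2 * b - 1 / 2) * F (2 * 1) (2 * b) := by
      calc (b : ℝ) ^ 2 * F (2 * 1) (2 * b + 1) ≤ (b : ℝ) ^ 2 * (ρ * F (2 * 1) (2 * b)) :=
            mul_le_mul_of_nonneg_left h1 (by positivity)
        _ = ((b : ℝ) ^ 2 * ρ) * F (2 * 1) (2 * b) := by ring
        _ ≤ _ := mul_le_mul_of_nonneg_right h3 hF0.le
    nlinarith
  · have h2a : (2 : ℝ) ≤ a := by exact_mod_cast h
    have h1 : F (2 * a) (2 * b + 1) ≤ (1 + 1 / (2 * (b : ℝ))) * F (2 * a) (2 * b) := by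
      have e1 := T1_right (2 * a) (2 * b) (by omega) (by omega)
      have e2 := T2_right (2 * a) (2 * b) (by omega) (by omega)
      have e3 := T3_right (2 * a) (2 * b) (by omega)
      have h3 := (T3_pos (2 * a) (2 * b)).le
      have h4 : T3 (2 * a) (2 * b) ≤ (1 + 1 / (2 * (b : ℝ))) * T3 (2 * a) (2 * b) := by
        have : 0 ≤ 1 / (2 * (b : ℝ)) := by positivity
        nlinarith
      push_cast at e1 e2
      unfold F
      linarith
    have h2 : F (2 * a + 1) (2 * b) ≤ (1 + 1 / (2 * (a : ℝ))) * F (2 * a) (2 * b) := by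
      have e1 := T1_left (2 * a) (2 * b) (by omega) (by omega)
      have e2 := T2_left (2 * a) (2 * b) (by omega)
      have e3 := T3_left (2 * a) (2 * b) (by omega)
      have h3 := (T3_pos (2 * a) (2 * b)).le
      have h3' := (T2_pos (2 * a) (2 * b)).le
      have h0 : 0 ≤ 1 / (2 * (a : ℝ)) := by positivity
      have h4 : T3 (2 * a) (2 * b) ≤ (1 + 1 / (2 * (a : ℝ))) * T3 (2 * a) (2 * b) := by
        nlinarith
      have h5 : T2 (2 * a) (2 * b) ≤ (1 + 1 / (2 * (a : ℝ))) * T2 (2 * a) (2 * b) := by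
        nlinarith
      push_cast at e1
      unfold F
      linarith
    have h5 : (b : ℝ) ^ 2 * F (2 * a) (2 * b + 1) ≤ ((b : ℝ) ^ 2 + b / 2) * F (2 * a) (2 * b) := by
      calc (b : ℝ) ^ 2 * F (2 * a) (2 * b + 1)
          ≤ (b : ℝ) ^ 2 * ((1 + 1 / (2 * (b : ℝ))) * F (2 * a) (2 * b)) :=
            mul_le_mul_of_nonneg_left h1 (by positivity)
        _ = ((b : ℝ) ^ 2 + b / 2) * F (2 * a) (2 * b) := by
            field_simp
    have h6 : (a : ℝ) ^ 2 * F (2 * a + 1) (2 * b) ≤ ((a : ℝ) ^ 2 + a / 2) * F (2 * a) (2 * b) := by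
      calc (a : ℝ) ^ 2 * F (2 * a + 1) (2 * b)
          ≤ (a : ℝ) ^ 2 * ((1 + 1 / (2 * (a : ℝ))) * F (2 * a) (2 * b)) :=
            mul_le_mul_of_nonneg_left h2 (by positivity)
        _ = ((a : ℝ) ^ 2 + a / 2) * F (2 * a) (2 * b) := by
            field_simp
    have h7 : 200 * (((b : ℝ) ^ 2 + b / 2) + ((a : ℝ) ^ 2 + a / 2)) ≤
        200 * ((a : ℝ) + b) ^ 2 - 100 := by nlinarith
    calc 200 * ((b : ℝ) ^ 2 * F (2 * a) (2 * b + 1) + (a : ℝ) ^ 2 * F (2 * a + 1) (2 * b))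
        ≤ (200 * (((b : ℝ) ^ 2 + b / 2) + ((a : ℝ) ^ 2 + a / 2))) * F (2 * a) (2 * b) := by
          linarith
      _ ≤ _ := mul_le_mul_of_nonneg_right h7 hF0.le

/-! ### The sequence -/

/-- The sequence defined by the recursion with the function `G` and first term `c`. -/
noncomputable def sq (G : ℕ → ℕ → ℝ) (c : ℝ) (d : ℕ) : ℝ :=
  if d ≤ 1 then c
  else ∑ i ∈ (Finset.Ico 1 d).attach, G i.1 (d - i.1) * sq G c i.1 * sq G c (d - i.1)
termination_by d
decreasing_by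
  · have := Finset.mem_Ico.1 i.2
    omega
  · have := Finset.mem_Ico.1 i.2
    omega

theorem sq_one (G : ℕ → ℕ → ℝ) (c : ℝ) : sq G c 1 = c := by
  rw [sq]
  simp

theorem sq_rec (G : ℕ → ℕ → ℝ) (c : ℝ) (d : ℕ) (hd : 2 ≤ d) :
    sq G c d = ∑ i ∈ Finset.Ico 1 d, G i (d - i) * sq G c i * sq G c (d - i) := by
  rw [sq, if_neg (by omega)]
  rw [← Finset.sum_attach (Finset.Ico 1 d)]

theorem sq_pos (c : ℝ) (hc : 0 < c) : ∀ d, 0 < sq F c d := by
  intro d
  induction d using Nat.strong_induction_on with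
  | _ d ih =>
    rcases Nat.lt_or_ge d 2 with h | h
    · rw [sq, if_pos (by omega)]
      exact hc
    · rw [sq_rec _ _ _ h]
      apply Finset.sum_pos
      · intro i hi
        rw [Finset.mem_Ico] at hi
        exact mul_pos (mul_pos (F_pos _ _) (ih i hi.2)) (ih (d - i) (by omega))
      · exact ⟨1, by rw [Finset.mem_Ico]; omega⟩

/-- Splitting a sum over `[1, 2m+1)` by parity. -/
theorem sum_odd (g : ℕ → ℝ) (m : ℕ) :
    ∑ i ∈ Finset.Ico 1 (2 * m + 1), g i =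
      ∑ a ∈ Finset.range m, (g (2 * a + 1) + g (2 * a + 2)) := by
  induction m with
  | zero => simp
  | succ m ih =>
    rw [Finset.sum_range_succ, ← ih]
    have e : 2 * (m + 1) + 1 = (2 * m + 1) + 1 + 1 := by ring
    rw [e, Finset.sum_Ico_succ_top (by omega), Finset.sum_Ico_succ_top (by omega)]
    ring

theorem sum_even_ge (g : ℕ → ℝ) (hg : ∀ i, 0 ≤ g i) (m : ℕ) :
    ∑ a ∈ Finset.Ico 1 m, g (2 * a) ≤ ∑ i ∈ Finset.Ico 1 (2 * m), g i := by
  have : ∑ a ∈ Finset.Ico 1 m, g (2 * a) = ∑ i ∈ (Finset.Ico 1 m).image (fun a => 2 * a), g i := by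
    rw [Finset.sum_image]
    intro a _ b _ h
    simp only at h
    omega
  rw [this]
  apply Finset.sum_le_sum_of_subset_of_nonneg
  · intro i hi
    rw [Finset.mem_image] at hi
    obtain ⟨a, ha, rfl⟩ := hi
    rw [Finset.mem_Ico] at ha ⊢
    omega
  · intro i _ _
    exact hg i

theorem F_one_one : (10 : ℝ) ^ 7 ≤ F 1 1 := by
  have h1 := T1_nonneg 1 1
  have h2 := (T2_pos 1 1).le
  have h3 : T3 1 1 = (10 : ℝ) ^ 7 := by
    unfold T3
    norm_num
  unfold F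
  linarith

theorem F_two (b : ℕ) : ((b : ℝ) + 2) ^ 4 ≤ F 2 b := by
  have h1 := T1_nonneg 2 b
  have h3 := (T3_pos 2 b).le
  have h2 : T2 2 b = ((b : ℝ) + 2) ^ 4 := by
    unfold T2
    norm_num
  unfold F
  linarith

theorem lower (c : ℝ) (hc : 0 < c) : ∀ m : ℕ,
    ((10 : ℝ) ^ 7 * c ^ 2) ^ (m + 1) * ((m + 1).factorial : ℝ) ^ 4 ≤ sq F c (2 * (m + 1)) := by
  have h2 : (10 : ℝ) ^ 7 * c ^ 2 ≤ sq F c 2 := by
    rw [sq_rec _ _ _ le_rfl]
    have : Finset.Ico 1 2 = {1} := by decide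
    rw [this, Finset.sum_singleton, show 2 - 1 = 1 from rfl, sq_one]
    have := F_one_one
    nlinarith [mul_pos hc hc]
  intro m
  induction m with
  | zero => simpa using h2
  | succ m ih =>
    have hterm : F 2 (2 * (m + 1)) * sq F c 2 * sq F c (2 * (m + 1)) ≤ sq F c (2 * (m + 1 + 1)) := by
      rw [sq_rec F c (2 * (m + 1 + 1)) (by omega)]
      have hmem : 2 ∈ Finset.Ico 1 (2 * (m + 1 + 1)) := by
        rw [Finset.mem_Ico]; omega
      have := Finset.single_le_sum (f := fun i => F i (2 * (m + 1 + 1) - i) * sq F c i *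
        sq F c (2 * (m + 1 + 1) - i)) (fun i _ => (mul_pos (mul_pos (F_pos _ _)
          (sq_pos c hc _)) (sq_pos c hc _)).le) hmem
      have e : 2 * (m + 1 + 1) - 2 = 2 * (m + 1) := by omega
      simp only [e] at this
      exact this
    refine le_trans ?_ hterm
    have h3 := F_two (2 * (m + 1))
    have h4 : ((m + 1 + 1 : ℕ) : ℝ) ^ 4 ≤ F 2 (2 * (m + 1)) := by
      refine le_trans ?_ h3
      apply pow_le_pow_left₀ (by positivity)
      push_cast
      linarith [show (0 : ℝ) ≤ m from by positivity]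
    have hX : 0 < (10 : ℝ) ^ 7 * c ^ 2 := by positivity
    calc ((10 : ℝ) ^ 7 * c ^ 2) ^ (m + 1 + 1) * ((m + 1 + 1).factorial : ℝ) ^ 4
        = ((m + 1 + 1 : ℕ) : ℝ) ^ 4 * ((10 : ℝ) ^ 7 * c ^ 2) *
          (((10 : ℝ) ^ 7 * c ^ 2) ^ (m + 1) * ((m + 1).factorial : ℝ) ^ 4) := by
          rw [Nat.factorial_succ (m + 1)]
          push_cast
          ring
      _ ≤ F 2 (2 * (m + 1)) * sq F c 2 * sq F c (2 * (m + 1)) := by
          apply mul_le_mul _ ih (by positivity) (mul_pos (F_pos _ _) (sq_pos c hc _)).le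
          exact mul_le_mul h4 h2 hX.le (F_pos _ _).le

theorem F_sum_le (m : ℕ) (hm : 2 ≤ m) : F (2 * m) 1 + F 1 (2 * m) ≤ 100 := by
  have a1 := T1_le_right (2 * m) 1 (by omega)
  have a2 := T2_le_one (2 * m) 1 (by omega)
  have a3 := T3_le_one (2 * m) 1 (Or.inl (by omega))
  have b1 := T1_le_left 1 (2 * m) (by omega)
  have b2 := T2_le_one 1 (2 * m) (by omega)
  have b3 := T3_le_one 1 (2 * m) (Or.inr (by omega))
  push_cast at a1 b1
  unfold F
  linarith

theorem F_sum_one : F 2 1 + F 1 2 ≤ 200 := by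
  have a1 := T1_le_right 2 1 (by omega)
  have a2 : T2 2 1 = 81 := by unfold T2; norm_num
  have a3 := T3_le_one 2 1 (Or.inl (by omega))
  have b1 := T1_le_left 1 2 (by omega)
  have b2 := T2_le_one 1 2 (by omega)
  have b3 := T3_le_one 1 2 (Or.inr (by omega))
  push_cast at a1 b1
  unfold F
  linarith

theorem upper (c : ℝ) (hc : 0 < c) : ∀ m : ℕ, 1 ≤ m →
    sq F c (2 * m + 1) ≤ 200 * (m : ℝ) ^ 2 * c * sq F c (2 * m) := by
  intro m
  induction m using Nat.strong_induction_on with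
  | _ m ih =>
    intro hm
    rcases Nat.lt_or_ge m 2 with h | h
    · have : m = 1 := by omega
      subst this
      rw [sq_rec F c (2 * 1 + 1) (by omega)]
      have e : Finset.Ico 1 (2 * 1 + 1) = {1, 2} := by decide
      rw [e, Finset.sum_pair (by norm_num)]
      have e1 : 2 * 1 + 1 - 1 = 2 := rfl
      have e2 : 2 * 1 + 1 - 2 = 1 := rfl
      have e3 : 2 * 1 = 2 := rfl
      rw [e1, e2, e3, sq_one]
      have h1 := F_sum_one
      have h2 := sq_pos c hc 2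
      have h3 : 0 < c * sq F c 2 := mul_pos hc h2
      push_cast
      nlinarith
    · -- the main step
      set x : ℕ → ℝ := fun a => sq F c (2 * a) with hx
      have hxpos : ∀ a, 0 < x a := fun a => sq_pos c hc _
      have hrec : sq F c (2 * m + 1) = ∑ a ∈ Finset.range m,
          (F (2 * a + 1) (2 * m - 2 * a) * sq F c (2 * a + 1) * sq F c (2 * m - 2 * a) +
          F (2 * a + 2) (2 * m - 2 * a - 1) * sq F c (2 * a + 2) * sq F c (2 * m - 2 * a - 1)) := by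
        rw [sq_rec F c (2 * m + 1) (by omega), sum_odd]
        refine Finset.sum_congr rfl fun a ha => ?_
        rw [Finset.mem_range] at ha
        have e1 : 2 * m + 1 - (2 * a + 1) = 2 * m - 2 * a := by omega
        have e2 : 2 * m + 1 - (2 * a + 2) = 2 * m - 2 * a - 1 := by omega
        rw [e1, e2]
      -- separate the odd and the even first indices
      have hsplit : sq F c (2 * m + 1) =
          (F 1 (2 * m) + F (2 * m) 1) * c * x m +
          ∑ a ∈ Finset.Ico 1 m, (F (2 * a + 1) (2 * (m - a)) * sq F c (2 * a + 1) * x (m - a) +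
            F (2 * a) (2 * (m - a) + 1) * x a * sq F c (2 * (m - a) + 1)) := by
        rw [hrec, Finset.sum_add_distrib, Finset.sum_add_distrib]
        have hA : ∑ a ∈ Finset.range m,
            F (2 * a + 1) (2 * m - 2 * a) * sq F c (2 * a + 1) * sq F c (2 * m - 2 * a) =
            F 1 (2 * m) * c * x m + ∑ a ∈ Finset.Ico 1 m,
              F (2 * a + 1) (2 * (m - a)) * sq F c (2 * a + 1) * x (m - a) := by
          rw [Finset.range_eq_Ico, Finset.sum_eq_sum_Ico_succ_bot (by omega)]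
          congr 1
          · simp [sq_one, hx]
          · refine Finset.sum_congr rfl fun a ha => ?_
            have e : 2 * m - 2 * a = 2 * (m - a) := by omega
            rw [e]
        have hB : ∑ a ∈ Finset.range m,
            F (2 * a + 2) (2 * m - 2 * a - 1) * sq F c (2 * a + 2) * sq F c (2 * m - 2 * a - 1) =
            F (2 * m) 1 * c * x m + ∑ a ∈ Finset.Ico 1 m,
              F (2 * a) (2 * (m - a) + 1) * x a * sq F c (2 * (m - a) + 1) := by
          obtain ⟨k, rfl⟩ : ∃ k, m = k + 1 := ⟨m - 1, by omega⟩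
          rw [Finset.sum_range_succ]
          have e1 : ∑ a ∈ Finset.Ico 1 (k + 1),
              F (2 * a) (2 * (k + 1 - a) + 1) * x a * sq F c (2 * (k + 1 - a) + 1) =
              ∑ a ∈ Finset.range k, F (2 * a + 2) (2 * (k + 1) - 2 * a - 1) *
                sq F c (2 * a + 2) * sq F c (2 * (k + 1) - 2 * a - 1) := by
            rw [Finset.sum_Ico_eq_sum_range]
            refine Finset.sum_congr rfl fun a ha => ?_
            rw [Finset.mem_range] at ha
            have e2 : 2 * (1 + a) = 2 * a + 2 := by ring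
            have e3 : 2 * (k + 1 - (1 + a)) + 1 = 2 * (k + 1) - 2 * a - 1 := by omega
            simp only [hx]
            rw [e2, e3]
          rw [e1]
          have e4 : 2 * (k + 1) - 2 * k - 1 = 1 := by omega
          have e5 : 2 * k + 2 = 2 * (k + 1) := by ring
          rw [e4, e5, sq_one]
          simp only [hx]
          ring
        rw [hA, hB]
        ring
      have hxm : ∑ a ∈ Finset.Ico 1 m, F (2 * a) (2 * (m - a)) * x a * x (m - a) ≤ x m := by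
        have h1 := sum_even_ge (fun i => F i (2 * m - i) * sq F c i * sq F c (2 * m - i))
          (fun i => (mul_pos (mul_pos (F_pos _ _) (sq_pos c hc _)) (sq_pos c hc _)).le) m
        rw [← sq_rec F c (2 * m) (by omega)] at h1
        refine le_trans (le_of_eq ?_) h1
        refine Finset.sum_congr rfl fun a ha => ?_
        have e : 2 * m - 2 * a = 2 * (m - a) := by omega
        simp only [e, hx]
      have hbound : ∑ a ∈ Finset.Ico 1 m,
          (F (2 * a + 1) (2 * (m - a)) * sq F c (2 * a + 1) * x (m - a) +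
            F (2 * a) (2 * (m - a) + 1) * x a * sq F c (2 * (m - a) + 1)) ≤
          c * (200 * (m : ℝ) ^ 2 - 100) *
            ∑ a ∈ Finset.Ico 1 m, F (2 * a) (2 * (m - a)) * x a * x (m - a) := by
        rw [Finset.mul_sum]
        apply Finset.sum_le_sum
        intro a ha
        rw [Finset.mem_Ico] at ha
        have i1 := ih a ha.2 ha.1
        have i2 := ih (m - a) (by omega) (by omega)
        have hk := key a (m - a) ha.1 (by omega)
        have hcast : ((m - a : ℕ) : ℝ) = (m : ℝ) - a := by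
          rw [Nat.cast_sub ha.2.le]
        rw [hcast] at i2 hk
        have e1 : (a : ℝ) + ((m : ℝ) - a) = m := by ring
        rw [e1] at hk
        have p1 := hxpos a
        have p2 := hxpos (m - a)
        have p3 := F_pos (2 * a + 1) (2 * (m - a))
        have p4 := F_pos (2 * a) (2 * (m - a) + 1)
        have j1 : F (2 * a + 1) (2 * (m - a)) * sq F c (2 * a + 1) * x (m - a) ≤
            F (2 * a + 1) (2 * (m - a)) * (200 * (a : ℝ) ^ 2 * c * x a) * x (m - a) :=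
          mul_le_mul_of_nonneg_right (mul_le_mul_of_nonneg_left i1 p3.le) p2.le
        have j2 : F (2 * a) (2 * (m - a) + 1) * x a * sq F c (2 * (m - a) + 1) ≤
            F (2 * a) (2 * (m - a) + 1) * x a *
              (200 * ((m : ℝ) - a) ^ 2 * c * x (m - a)) :=
          mul_le_mul_of_nonneg_left i2 (mul_pos p4 p1).le
        have j3 : (200 * (((m : ℝ) - a) ^ 2 * F (2 * a) (2 * (m - a) + 1) +
            (a : ℝ) ^ 2 * F (2 * a + 1) (2 * (m - a)))) * (c * x a * x (m - a)) ≤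
            ((200 * (m : ℝ) ^ 2 - 100) * F (2 * a) (2 * (m - a))) * (c * x a * x (m - a)) :=
          mul_le_mul_of_nonneg_right hk (by positivity)
        calc F (2 * a + 1) (2 * (m - a)) * sq F c (2 * a + 1) * x (m - a) +
              F (2 * a) (2 * (m - a) + 1) * x a * sq F c (2 * (m - a) + 1)
            ≤ F (2 * a + 1) (2 * (m - a)) * (200 * (a : ℝ) ^ 2 * c * x a) * x (m - a) +
              F (2 * a) (2 * (m - a) + 1) * x a *
              (200 * ((m : ℝ) - a) ^ 2 * c * x (m - a)) := add_le_add j1 j2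
          _ = (200 * (((m : ℝ) - a) ^ 2 * F (2 * a) (2 * (m - a) + 1) +
            (a : ℝ) ^ 2 * F (2 * a + 1) (2 * (m - a)))) * (c * x a * x (m - a)) := by ring
          _ ≤ ((200 * (m : ℝ) ^ 2 - 100) * F (2 * a) (2 * (m - a))) * (c * x a * x (m - a)) := j3
          _ = c * (200 * (m : ℝ) ^ 2 - 100) *
              (F (2 * a) (2 * (m - a)) * x a * x (m - a)) := by ring
      have hm2 : (2 : ℝ) ≤ m := by exact_mod_cast h
      have hco : 0 ≤ c * (200 * (m : ℝ) ^ 2 - 100) := by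
        apply mul_nonneg hc.le
        nlinarith
      have h100 := F_sum_le m h
      have hcx : 0 < c * x m := mul_pos hc (hxpos m)
      calc sq F c (2 * m + 1) = _ := hsplit
        _ ≤ (F 1 (2 * m) + F (2 * m) 1) * c * x m + c * (200 * (m : ℝ) ^ 2 - 100) * x m := by
            have := mul_le_mul_of_nonneg_left hxm hco
            linarith
        _ ≤ 200 * (m : ℝ) ^ 2 * c * x m := by nlinarith

theorem pow_self_le (m : ℕ) : (m : ℝ) ^ m ≤ 3 ^ m * (m.factorial : ℝ) := by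
  have h1 := Real.pow_div_factorial_le_exp (m : ℝ) (by positivity) m
  have h2 : Real.exp (m : ℝ) ≤ 3 ^ m := by
    rw [← Real.exp_one_pow]
    apply pow_le_pow_left₀ (Real.exp_pos _).le
    exact Real.exp_one_lt_three.le
  have h3 : (0 : ℝ) < m.factorial := by exact_mod_cast Nat.factorial_pos m
  rw [div_le_iff₀ h3] at h1
  calc (m : ℝ) ^ m ≤ Real.exp m * m.factorial := h1
    _ ≤ _ := mul_le_mul_of_nonneg_right h2 h3.le

/-- The roots decrease at even places. -/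
theorem decrease (c : ℝ) (hc : 0 < c) (m : ℕ) (hm : 1 ≤ m) :
    (sq F c (2 * m + 1)) ^ (1 / ((2 * m + 1 : ℕ) : ℝ)) < (sq F c (2 * m)) ^ (1 / ((2 * m : ℕ) : ℝ)) := by
  set x := sq F c (2 * m) with hx
  set y := sq F c (2 * m + 1) with hy
  have hx0 : 0 < x := sq_pos c hc _
  have hy0 : 0 < y := sq_pos c hc _
  have hup : y ≤ 200 * (m : ℝ) ^ 2 * c * x := upper c hc m hm
  have hlow : ((10 : ℝ) ^ 7 * c ^ 2) ^ m * (m.factorial : ℝ) ^ 4 ≤ x := by
    obtain ⟨k, rfl⟩ : ∃ k, m = k + 1 := ⟨m - 1, by omega⟩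
    exact lower c hc k
  have hm1 : (1 : ℝ) ≤ m := by exact_mod_cast hm
  have hfac : (0 : ℝ) < m.factorial := by exact_mod_cast Nat.factorial_pos m
  have hH : (200 * (m : ℝ) ^ 2 * c) ^ (2 * m) < x := by
    refine lt_of_lt_of_le ?_ hlow
    have e1 : (200 * (m : ℝ) ^ 2 * c) ^ (2 * m) =
        (40000 : ℝ) ^ m * c ^ (2 * m) * ((m : ℝ) ^ m) ^ 4 := by
      have h200 : (200 : ℝ) ^ (2 * m) = 40000 ^ m := by
        rw [pow_mul]
        norm_num
      rw [mul_pow, mul_pow, h200]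
      ring
    have e2 : ((10 : ℝ) ^ 7 * c ^ 2) ^ m = (10 ^ 7 : ℝ) ^ m * c ^ (2 * m) := by
      rw [mul_pow, ← pow_mul c]
    rw [e1, e2]
    have h1 : ((m : ℝ) ^ m) ^ 4 ≤ (81 : ℝ) ^ m * (m.factorial : ℝ) ^ 4 := by
      calc ((m : ℝ) ^ m) ^ 4 ≤ (3 ^ m * (m.factorial : ℝ)) ^ 4 :=
            pow_le_pow_left₀ (by positivity) (pow_self_le m) 4
        _ = (81 : ℝ) ^ m * (m.factorial : ℝ) ^ 4 := by
            rw [mul_pow, ← pow_mul, mul_comm m 4, pow_mul]
            norm_num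
    have h2 : (40000 : ℝ) ^ m * 81 ^ m < (10 ^ 7) ^ m := by
      rw [← mul_pow]
      apply pow_lt_pow_left₀ (by norm_num) (by norm_num) (by omega)
    have h3 : 0 < c ^ (2 * m) := by positivity
    calc (40000 : ℝ) ^ m * c ^ (2 * m) * ((m : ℝ) ^ m) ^ 4
        ≤ (40000 : ℝ) ^ m * c ^ (2 * m) * ((81 : ℝ) ^ m * (m.factorial : ℝ) ^ 4) :=
          mul_le_mul_of_nonneg_left h1 (by positivity)
      _ = ((40000 : ℝ) ^ m * 81 ^ m) * (c ^ (2 * m) * (m.factorial : ℝ) ^ 4) := by ring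
      _ < (10 ^ 7) ^ m * (c ^ (2 * m) * (m.factorial : ℝ) ^ 4) :=
          mul_lt_mul_of_pos_right h2 (by positivity)
      _ = (10 ^ 7) ^ m * c ^ (2 * m) * (m.factorial : ℝ) ^ 4 := by ring
  have hpow : y ^ (2 * m) < x ^ (2 * m + 1) := by
    calc y ^ (2 * m) ≤ (200 * (m : ℝ) ^ 2 * c * x) ^ (2 * m) :=
          pow_le_pow_left₀ hy0.le hup _
      _ = (200 * (m : ℝ) ^ 2 * c) ^ (2 * m) * x ^ (2 * m) := by rw [mul_pow]
      _ < x * x ^ (2 * m) := mul_lt_mul_of_pos_right hH (by positivity)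
      _ = x ^ (2 * m + 1) := by ring
  -- pass to roots
  have hA : (0 : ℝ) < ((2 * m : ℕ) : ℝ) := by
    have : 0 < 2 * m := by omega
    exact_mod_cast this
  have hB : (0 : ℝ) < ((2 * m + 1 : ℕ) : ℝ) := by positivity
  have h1 : (y ^ (2 * m)) ^ (1 / (((2 * m : ℕ) : ℝ) * ((2 * m + 1 : ℕ) : ℝ))) <
      (x ^ (2 * m + 1)) ^ (1 / (((2 * m : ℕ) : ℝ) * ((2 * m + 1 : ℕ) : ℝ))) :=
    Real.rpow_lt_rpow (by positivity) hpow (by positivity)
  rw [← Real.rpow_natCast y, ← Real.rpow_natCast x, ← Real.rpow_mul hy0.le,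
    ← Real.rpow_mul hx0.le] at h1
  have e1 : ((2 * m : ℕ) : ℝ) * (1 / (((2 * m : ℕ) : ℝ) * ((2 * m + 1 : ℕ) : ℝ))) =
      1 / ((2 * m + 1 : ℕ) : ℝ) := by
    field_simp
  have e2 : ((2 * m + 1 : ℕ) : ℝ) * (1 / (((2 * m : ℕ) : ℝ) * ((2 * m + 1 : ℕ) : ℝ))) =
      1 / ((2 * m : ℕ) : ℝ) := by
    field_simp
  rw [e1, e2] at h1
  exact h1

/-! ### Admissibility -/

/-- first factor of the denominator -/
noncomputable def q1 : MvPolynomial (Fin 2) ℚ := MvPolynomial.X 0 + MvPolynomial.X 1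
/-- second factor of the denominator -/
noncomputable def q2 : MvPolynomial (Fin 2) ℚ :=
  (MvPolynomial.X 1 + MvPolynomial.C 2) ^ 4 * (MvPolynomial.X 0 - MvPolynomial.C 2) ^ 2 +
    MvPolynomial.C 1
/-- third factor of the denominator -/
noncomputable def q3 : MvPolynomial (Fin 2) ℚ :=
  MvPolynomial.C (10 ^ 7) * ((MvPolynomial.X 0 - MvPolynomial.C 1) ^ 2 +
    (MvPolynomial.X 1 - MvPolynomial.C 1) ^ 2) + MvPolynomial.C 1
/-- the denominator -/
noncomputable def QQ : MvPolynomial (Fin 2) ℚ := q1 * q2 * q3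
/-- the numerator -/
noncomputable def PP : MvPolynomial (Fin 2) ℚ :=
  MvPolynomial.X 0 * MvPolynomial.X 1 * q2 * q3 +
    (MvPolynomial.X 1 + MvPolynomial.C 2) ^ 4 * q1 * q3 + MvPolynomial.C (10 ^ 7) * q1 * q2

theorem eval_q1 (a b : ℕ) : MvPolynomial.eval ![(a : ℚ), (b : ℚ)] q1 = (a : ℚ) + b := by
  simp [q1]

theorem eval_q2 (a b : ℕ) : MvPolynomial.eval ![(a : ℚ), (b : ℚ)] q2 =
    ((b : ℚ) + 2) ^ 4 * ((a : ℚ) - 2) ^ 2 + 1 := by
  simp only [q2, map_add, map_mul, map_pow, map_sub, MvPolynomial.eval_X, MvPolynomial.eval_C]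
  simp

theorem eval_q3 (a b : ℕ) : MvPolynomial.eval ![(a : ℚ), (b : ℚ)] q3 =
    (10 : ℚ) ^ 7 * (((a : ℚ) - 1) ^ 2 + ((b : ℚ) - 1) ^ 2) + 1 := by
  simp only [q3, map_add, map_mul, map_pow, map_sub, MvPolynomial.eval_X, MvPolynomial.eval_C]
  simp

theorem eval_QQ_pos (a b : ℕ) (ha : 1 ≤ a) :
    0 < MvPolynomial.eval ![(a : ℚ), (b : ℚ)] QQ := by
  have ha' : (1 : ℚ) ≤ a := by exact_mod_cast ha
  rw [QQ, map_mul, map_mul, eval_q1, eval_q2, eval_q3]
  positivity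

theorem val_eq (a b : ℕ) (ha : 1 ≤ a) : val PP QQ a b = F a b := by
  have ha' : (1 : ℝ) ≤ a := by exact_mod_cast ha
  have e : MvPolynomial.eval ![(a : ℚ), (b : ℚ)] PP =
      (a : ℚ) * b * (((b : ℚ) + 2) ^ 4 * ((a : ℚ) - 2) ^ 2 + 1) *
        ((10 : ℚ) ^ 7 * (((a : ℚ) - 1) ^ 2 + ((b : ℚ) - 1) ^ 2) + 1) +
      ((b : ℚ) + 2) ^ 4 * ((a : ℚ) + b) *
        ((10 : ℚ) ^ 7 * (((a : ℚ) - 1) ^ 2 + ((b : ℚ) - 1) ^ 2) + 1) +
      (10 : ℚ) ^ 7 * ((a : ℚ) + b) * (((b : ℚ) + 2) ^ 4 * ((a : ℚ) - 2) ^ 2 + 1) := by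
    rw [PP]
    simp only [map_add, map_mul, map_pow, MvPolynomial.eval_X, MvPolynomial.eval_C, eval_q1,
      eval_q2, eval_q3]
    simp
  have h1 : (0 : ℝ) < (a : ℝ) + b := by positivity
  have h2 : (0 : ℝ) < ((b : ℝ) + 2) ^ 4 * ((a : ℝ) - 2) ^ 2 + 1 := by positivity
  have h3 : (0 : ℝ) < (10 : ℝ) ^ 7 * (((a : ℝ) - 1) ^ 2 + ((b : ℝ) - 1) ^ 2) + 1 := by positivity
  unfold val F T1 T2 T3
  rw [e, QQ, map_mul, map_mul, eval_q1, eval_q2, eval_q3]
  push_cast
  rw [div_add_div _ _ h1.ne' h2.ne', div_add_div _ _ (by positivity) h3.ne']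
  congr 1
  ring

theorem inv_T1 (a b : ℕ) (ha : 1 ≤ a) (hb : 1 ≤ b) :
    (T1 a b)⁻¹ = 1 / (a : ℝ) + 1 / (b : ℝ) := by
  have ha' : (1 : ℝ) ≤ a := by exact_mod_cast ha
  have hb' : (1 : ℝ) ≤ b := by exact_mod_cast hb
  unfold T1
  field_simp
  ring

theorem admissible : Admissible PP QQ := by
  refine ⟨fun a b ha _ => (eval_QQ_pos a b ha).ne', fun a b ha _ => ?_, 1, one_pos, 1, one_pos, ?_⟩
  · rw [val_eq a b ha]
    exact F_pos a b
  · have hlim : Tendsto (fun p : ℕ × ℕ => 1 + 2 * (1 / (p.1 : ℝ) + 1 / (p.2 : ℝ)))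
        (atTop ×ˢ atTop) (𝓝 1) := by
      have h1 : Tendsto (fun p : ℕ × ℕ => 1 / (p.1 : ℝ)) (atTop ×ˢ atTop) (𝓝 0) :=
        tendsto_one_div_atTop_nhds_zero_nat.comp tendsto_fst
      have h2 : Tendsto (fun p : ℕ × ℕ => 1 / (p.2 : ℝ)) (atTop ×ˢ atTop) (𝓝 0) :=
        tendsto_one_div_atTop_nhds_zero_nat.comp tendsto_snd
      have h3 := ((h1.add h2).const_mul 2).const_add 1
      simpa using h3
    have hev : ∀ᶠ p : ℕ × ℕ in atTop ×ˢ atTop, 3 ≤ p.1 ∧ 1 ≤ p.2 :=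
      (eventually_ge_atTop 3).prod_mk (eventually_ge_atTop 1)
    have hform : ∀ᶠ p : ℕ × ℕ in atTop ×ˢ atTop,
        val PP QQ p.1 p.2 / (((p.1 : ℝ) * (p.2 : ℝ)) / ((p.1 : ℝ) + (p.2 : ℝ))) ^ (1 : ℝ) =
          1 + (T2 p.1 p.2 + T3 p.1 p.2) * (1 / (p.1 : ℝ) + 1 / (p.2 : ℝ)) := by
      filter_upwards [hev] with p hp
      rw [val_eq _ _ (by omega), Real.rpow_one, ← inv_T1 _ _ (by omega) hp.2]
      have ha' : (3 : ℝ) ≤ p.1 := by exact_mod_cast hp.1
      have hb' : (1 : ℝ) ≤ p.2 := by exact_mod_cast hp.2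
      have hT : 0 < T1 p.1 p.2 := by unfold T1; positivity
      have e : ((p.1 : ℝ) * (p.2 : ℝ)) / ((p.1 : ℝ) + (p.2 : ℝ)) = T1 p.1 p.2 := rfl
      rw [e]
      unfold F
      field_simp
      ring
    rw [tendsto_congr' hform]
    refine tendsto_of_tendsto_of_tendsto_of_le_of_le' tendsto_const_nhds hlim ?_ ?_
    · filter_upwards [hev] with p hp
      have h1 := (T2_pos p.1 p.2).le
      have h2 := (T3_pos p.1 p.2).le
      have : 0 ≤ (T2 p.1 p.2 + T3 p.1 p.2) * (1 / (p.1 : ℝ) + 1 / (p.2 : ℝ)) := by positivity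
      linarith
    · filter_upwards [hev] with p hp
      have h1 := T2_le_one p.1 p.2 (by omega)
      have h2 := T3_le_one p.1 p.2 (Or.inl (by omega))
      have h3 : 0 ≤ 1 / (p.1 : ℝ) + 1 / (p.2 : ℝ) := by positivity
      have := mul_le_mul_of_nonneg_right (add_le_add h1 h2) h3
      linarith

/-- There is an admissible rational function (numerator `P`, denominator `Q`) such that for every
`n₁ > 0` the sequence defined by the recursion satisfies
`n_{2m+1} ^ (1/(2m+1)) < n_{2m} ^ (1/(2m))` for all `m ≥ 1`. -/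
theorem result :
    ∃ P Q : MvPolynomial (Fin 2) ℚ, Admissible P Q ∧
      ∀ n₁ : ℝ, 0 < n₁ →
        ∃ n : ℕ → ℝ, n 1 = n₁ ∧
          (∀ d : ℕ, 2 ≤ d →
            n d = ∑ i ∈ Finset.Ico 1 d, val P Q i (d - i) * n i * n (d - i)) ∧
          ∀ m : ℕ, 1 ≤ m →
            (n (2 * m + 1)) ^ (1 / ((2 * m + 1 : ℕ) : ℝ)) <
              (n (2 * m)) ^ (1 / ((2 * m : ℕ) : ℝ)) := by
  refine ⟨PP, QQ, admissible, fun c hc => ⟨sq F c, sq_one F c, fun d hd => ?_,
    fun m hm => decrease c hc m hm⟩⟩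
  rw [sq_rec F c d hd]
  refine Finset.sum_congr rfl fun i hi => ?_
  rw [Finset.mem_Ico] at hi
  rw [val_eq i (d - i) hi.1]

end Pool.Agent.Results.MP_0f9b8a_co.NotMonotone
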